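import Pool.Agent.J4.H52.BSP.Final

set_option autoImplicit false

namespace Pool.Agent.Results.MP_ebf3a9_co.FatFlatsLower

open Pool.Agent.J4.H52.BSP Filter Asymptotics

theorem lowerBounds (d k : ℕ) (hk : 2 ≤ k) (hd : k + 3 ≤ d) :
    ∃ c : ℝ, 0 < c ∧ ∀ n : ℕ, 1 ≤ n → ∃ S : Finset (Set (Fin d → ℝ)), S.card = n ∧
      (∀ F ∈ S, ∀ F' ∈ S, F ≠ F' → Disjoint F F') ∧ (∀ F ∈ S, IsFatFlat k 1 F) ∧
      ∀ B : Tree d, B.Valid (S : Set (Set (Fin d → ℝ))) Set.univ →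
        c * (n : ℝ) ^ (((d - k + min k (d - k - 1) : ℕ) : ℝ) / ((d - k : ℕ) : ℝ)) /
            (1 + Real.log n) ^ (min k (d - k - 1) - 1) ≤ (B.size : ℝ) ∧
        (B.AxisAligned →
          c * (n : ℝ) ^ (((d - k + min k (d - k - 1) : ℕ) : ℝ) / ((d - k : ℕ) : ℝ)) ≤
            (B.size : ℝ)) := by
  obtain ⟨e, he⟩ : ∃ e, min k (d - k - 1) = e + 1 := ⟨min k (d - k - 1) - 1, by omega⟩
  rw [he]
  exact lower d k e (by omega) (by omega)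

theorem conjectureFails (d k : ℕ) (hk : 2 ≤ k) (hd : k + 3 ≤ d) (C a : ℝ) :
    ∃ n₀ : ℕ, ∀ n : ℕ, n₀ ≤ n → ∃ S : Finset (Set (Fin d → ℝ)), S.card = n ∧
      (∀ F ∈ S, ∀ F' ∈ S, F ≠ F' → Disjoint F F') ∧ (∀ F ∈ S, IsFatFlat k 1 F) ∧
      ∀ B : Tree d, B.Valid (S : Set (Set (Fin d → ℝ))) Set.univ →
        C * (n : ℝ) ^ (((d - k + 1 : ℕ) : ℝ) / ((d - k : ℕ) : ℝ)) * Real.log n ^ a <
          (B.size : ℝ) := by
  obtain ⟨c, hc, hS⟩ := lowerBounds d k hk hd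
  obtain ⟨e, he⟩ : ∃ e, min k (d - k - 1) = e + 2 := ⟨min k (d - k - 1) - 2, by omega⟩
  rw [he] at hS
  set m := d - k with hm
  have hm0 : 0 < m := by omega
  have hmr : (0 : ℝ) < (m : ℝ) := by exact_mod_cast hm0
  -- the comparison
  have hs : (0 : ℝ) < ((e : ℝ) + 1) / m := by positivity
  have hlit := isLittleO_log_rpow_rpow_atTop (a + ((e : ℝ) + 1)) hs
  have hev := hlit.def (c := c / ((|C| + 1) * 2 ^ (e + 1) * 2)) (by positivity)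
  have hev2 : ∀ᶠ x : ℝ in atTop, 1 ≤ Real.log x :=
    Real.tendsto_log_atTop.eventually_ge_atTop 1
  obtain ⟨x0, hx0⟩ := (hev.and (hev2.and (eventually_ge_atTop (1 : ℝ)))).exists_forall_of_atTop
  refine ⟨⌈x0⌉₊ + 1, fun n hn => ?_⟩
  have hnx : x0 ≤ (n : ℝ) := by
    have h1 : x0 ≤ (⌈x0⌉₊ : ℝ) := Nat.le_ceil x0
    have h2 : ((⌈x0⌉₊ + 1 : ℕ) : ℝ) ≤ n := by exact_mod_cast hn
    push_cast at h2
    linarith
  obtain ⟨h1, h2, h3⟩ := hx0 n hnx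
  have hn1 : 1 ≤ n := by exact_mod_cast h3
  obtain ⟨S, hS1, hS2, hS3, hS4⟩ := hS n hn1
  refine ⟨S, hS1, hS2, hS3, fun B hB => ?_⟩
  refine lt_of_lt_of_le ?_ (hS4 B hB).1
  have hn0 : (0 : ℝ) < n := by linarith
  have hlog : 0 < Real.log n := by linarith
  set l := Real.log n with hl
  have e1 : (n : ℝ) ^ (((m + (e + 2) : ℕ) : ℝ) / (m : ℝ)) =
      (n : ℝ) ^ (((m + 1 : ℕ) : ℝ) / (m : ℝ)) * (n : ℝ) ^ (((e : ℝ) + 1) / m) := by
    rw [← Real.rpow_add hn0]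
    congr 1
    push_cast
    field_simp
    ring
  have e2 : e + 2 - 1 = e + 1 := rfl
  rw [e1, e2]
  set P := (n : ℝ) ^ (((m + 1 : ℕ) : ℝ) / (m : ℝ)) with hP
  set Q := (n : ℝ) ^ (((e : ℝ) + 1) / m) with hQ
  have hP0 : 0 < P := Real.rpow_pos_of_pos hn0 _
  have hQ0 : 0 < Q := Real.rpow_pos_of_pos hn0 _
  have h4 : l ^ (a + ((e : ℝ) + 1)) ≤ c / ((|C| + 1) * 2 ^ (e + 1) * 2) * Q := by
    have := h1
    rw [Real.norm_eq_abs, Real.norm_eq_abs, abs_of_pos (Real.rpow_pos_of_pos hlog _),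
      abs_of_pos hQ0] at this
    exact this
  have h5 : l ^ (a + ((e : ℝ) + 1)) = l ^ a * l ^ (e + 1) := by
    rw [Real.rpow_add hlog, ← Real.rpow_natCast l (e + 1)]
    push_cast
    rfl
  have hla : 0 < l ^ a := Real.rpow_pos_of_pos hlog _
  have h6 : (1 + l) ^ (e + 1) ≤ 2 ^ (e + 1) * l ^ (e + 1) := by
    rw [← mul_pow]
    exact pow_le_pow_left₀ (by linarith) (by linarith) _
  have hden : 0 < (1 + l) ^ (e + 1) := by positivity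
  rw [lt_div_iff₀ hden]
  have hC0 : 0 ≤ |C| := abs_nonneg C
  have h7 : C * P * l ^ a * (1 + l) ^ (e + 1) ≤ |C| * P * l ^ a * (2 ^ (e + 1) * l ^ (e + 1)) := by
    apply mul_le_mul _ h6 hden.le (by positivity)
    apply mul_le_mul_of_nonneg_right _ hla.le
    exact mul_le_mul_of_nonneg_right (le_abs_self C) hP0.le
  have h8 : |C| * P * l ^ a * (2 ^ (e + 1) * l ^ (e + 1)) =
      |C| * 2 ^ (e + 1) * P * l ^ (a + ((e : ℝ) + 1)) := by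
    rw [h5]; ring
  have h9 : |C| * 2 ^ (e + 1) * P * l ^ (a + ((e : ℝ) + 1)) ≤
      |C| * 2 ^ (e + 1) * P * (c / ((|C| + 1) * 2 ^ (e + 1) * 2) * Q) :=
    mul_le_mul_of_nonneg_left h4 (by positivity)
  have h10 : |C| * 2 ^ (e + 1) * P * (c / ((|C| + 1) * 2 ^ (e + 1) * 2) * Q) =
      (|C| / (|C| + 1)) * (c * (P * Q) / 2) := by
    field_simp
  have h11 : |C| / (|C| + 1) ≤ 1 := by
    rw [div_le_one (by positivity)]; linarith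
  have h12 : 0 < c * (P * Q) := by positivity
  have h13 : (|C| / (|C| + 1)) * (c * (P * Q) / 2) ≤ 1 * (c * (P * Q) / 2) :=
    mul_le_mul_of_nonneg_right h11 (by positivity)
  linarith

/-- **Disproof of the conjectured upper bound.** -/
theorem result :
    (∀ d k : ℕ, 2 ≤ k → k + 3 ≤ d →
      ∃ c : ℝ, 0 < c ∧ ∀ n : ℕ, 1 ≤ n → ∃ S : Finset (Set (Fin d → ℝ)), S.card = n ∧
        (∀ F ∈ S, ∀ F' ∈ S, F ≠ F' → Disjoint F F') ∧ (∀ F ∈ S, IsFatFlat k 1 F) ∧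
        ∀ B : Tree d, B.Valid (S : Set (Set (Fin d → ℝ))) Set.univ →
          c * (n : ℝ) ^ (((d - k + min k (d - k - 1) : ℕ) : ℝ) / ((d - k : ℕ) : ℝ)) /
              (1 + Real.log n) ^ (min k (d - k - 1) - 1) ≤ (B.size : ℝ) ∧
          (B.AxisAligned →
            c * (n : ℝ) ^ (((d - k + min k (d - k - 1) : ℕ) : ℝ) / ((d - k : ℕ) : ℝ)) ≤
              (B.size : ℝ))) ∧
    (∀ d k : ℕ, 2 ≤ k → k + 3 ≤ d → ∀ C a : ℝ,
      ∃ n₀ : ℕ, ∀ n : ℕ, n₀ ≤ n → ∃ S : Finset (Set (Fin d → ℝ)), S.card = n ∧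
        (∀ F ∈ S, ∀ F' ∈ S, F ≠ F' → Disjoint F F') ∧ (∀ F ∈ S, IsFatFlat k 1 F) ∧
        ∀ B : Tree d, B.Valid (S : Set (Set (Fin d → ℝ))) Set.univ →
          C * (n : ℝ) ^ (((d - k + 1 : ℕ) : ℝ) / ((d - k : ℕ) : ℝ)) * Real.log n ^ a <
            (B.size : ℝ)) :=
  ⟨lowerBounds, conjectureFails⟩

end Pool.Agent.Results.MP_ebf3a9_co.FatFlatsLower
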